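import Pool.Agent.Q49.AF.All

/-! Coefficients orthogonal to all arithmetical test functions. -/

set_option autoImplicit false

namespace Pool.Agent.Q235.CO

open Finset Filter Topology
open Pool.Agent.Q49.AF
open Pool.Agent.W41.MU (MulB)

/-- The coefficients `c N n` are orthogonal to the class of the test functions. -/
def Bd (c : ℕ → ℕ → ℂ) : Prop := ∀ (d r k : ℕ) (ε : ℝ), 0 < ε → ∃ N0 : ℕ, ∀ N : ℕ, N0 ≤ N →
  ∀ g : ℕ → ℂ, MulB g → ∀ f : Fin d → ℕ → ℝ, (∀ i, AddR (f i)) → ∀ t : Fin d → ℝ,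
  ∀ (A : Type) [AddCommMonoid A], ∀ h : ℕ → A, AddA h →
  ∀ V : Finset A, (∀ p : ℕ, p.Prime → h p ∈ V) → V.card ≤ r →
  ∀ Φ : List ℕ → A → ℂ, (∀ l a, ‖Φ l a‖ ≤ 1) →
    ‖∑ n ∈ Icc 1 N, c N n * cls g f t h (fun n => Φ (top k n)) n‖ ≤ ε * N

open scoped Classical in
theorem Bd_of_RX {P : ℕ → Prop} {l : ℝ} (h : RX P l) : Bd (fun _ n => (if P n then (1 : ℂ) else 0) - l) := by
  intro d r k ε hε
  obtain ⟨N0, _, H⟩ := h d r k (min ε 1) (lt_min hε one_pos) (min_le_right _ _)
  refine ⟨N0, fun N hN g hg f hf t A _ u hu V hV hVr Φ hΦ => ?_⟩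
  exact (H N hN g hg f hf t A u hu V hV hVr Φ hΦ).trans
    (mul_le_mul_of_nonneg_right (min_le_left _ _) (Nat.cast_nonneg _))

theorem Bd_congr {c c' : ℕ → ℕ → ℂ} (h : ∀ N n, 1 ≤ n → n ≤ N → c N n = c' N n) (hc : Bd c) : Bd c' := by
  intro d r k ε hε
  obtain ⟨N0, H⟩ := hc d r k ε hε
  refine ⟨N0, fun N hN g hg f hf t A _ u hu V hV hVr Φ hΦ => ?_⟩
  have h1 := H N hN g hg f hf t A u hu V hV hVr Φ hΦ
  refine le_trans (le_of_eq ?_) h1
  congr 1
  apply sum_congr rfl; intro n hn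
  rw [mem_Icc] at hn
  rw [h N n hn.1 hn.2]

theorem Bd_add {c c' : ℕ → ℕ → ℂ} (hc : Bd c) (hc' : Bd c') : Bd (fun N n => c N n + c' N n) := by
  intro d r k ε hε
  obtain ⟨N0, H⟩ := hc d r k (ε / 2) (by positivity)
  obtain ⟨N1, H1⟩ := hc' d r k (ε / 2) (by positivity)
  refine ⟨max N0 N1, fun N hN g hg f hf t A _ u hu V hV hVr Φ hΦ => ?_⟩
  have h1 := H N (le_trans (le_max_left _ _) hN) g hg f hf t A u hu V hV hVr Φ hΦ
  have h2 := H1 N (le_trans (le_max_right _ _) hN) g hg f hf t A u hu V hV hVr Φ hΦ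
  have e : ∑ n ∈ Icc 1 N, (c N n + c' N n) * cls g f t u (fun n => Φ (top k n)) n
      = ∑ n ∈ Icc 1 N, c N n * cls g f t u (fun n => Φ (top k n)) n
        + ∑ n ∈ Icc 1 N, c' N n * cls g f t u (fun n => Φ (top k n)) n := by
    rw [← sum_add_distrib]
    exact sum_congr rfl fun n _ => by ring
  rw [e]
  refine (norm_add_le _ _).trans ?_
  linarith

theorem Bd_smul {c : ℕ → ℕ → ℂ} (a : ℂ) (hc : Bd c) : Bd (fun N n => a * c N n) := by
  intro d r k ε hε
  have ha : 0 < ‖a‖ + 1 := by positivity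
  obtain ⟨N0, H⟩ := hc d r k (ε / (‖a‖ + 1)) (by positivity)
  refine ⟨N0, fun N hN g hg f hf t A _ u hu V hV hVr Φ hΦ => ?_⟩
  have h1 := H N hN g hg f hf t A u hu V hV hVr Φ hΦ
  have e : ∑ n ∈ Icc 1 N, a * c N n * cls g f t u (fun n => Φ (top k n)) n
      = a * ∑ n ∈ Icc 1 N, c N n * cls g f t u (fun n => Φ (top k n)) n := by
    rw [mul_sum]
    exact sum_congr rfl fun n _ => by ring
  rw [e, norm_mul]
  calc ‖a‖ * _ ≤ (‖a‖ + 1) * (ε / (‖a‖ + 1) * N) := by
        apply mul_le_mul (by linarith) h1 (norm_nonneg _) ha.le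
    _ = ε * N := by field_simp

theorem Bd_sum {ι : Type} (s : Finset ι) {c : ι → ℕ → ℕ → ℂ} (hc : ∀ i ∈ s, Bd (c i)) :
    Bd (fun N n => ∑ i ∈ s, c i N n) := by
  classical
  induction s using Finset.induction_on with
  | empty =>
    intro d r k ε hε
    refine ⟨0, fun N _ g hg f hf t A _ u hu V hV hVr Φ hΦ => ?_⟩
    simp only [sum_empty, zero_mul, sum_const_zero, norm_zero]
    positivity
  | insert i s hi ih =>
    refine Bd_congr (fun N n _ _ => ?_) (Bd_add (hc i (mem_insert_self _ _))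
      (ih fun j hj => hc j (mem_insert_of_mem hj)))
    rw [sum_insert hi]

/-- multiplication by a bounded multiplicative function -/
theorem Bd_mul {c : ℕ → ℕ → ℂ} (hc : Bd c) {χ : ℕ → ℂ} (hχ : MulB χ) : Bd (fun N n => c N n * χ n) := by
  classical
  intro d r k ε hε
  obtain ⟨N0, H⟩ := hc d r k ε hε
  refine ⟨N0, fun N hN g hg f hf t A _ u hu V hV hVr Φ hΦ => ?_⟩
  have hg' : MulB (fun n => χ n * g n) := by
    refine ⟨fun n => ?_, fun m n hmn => ?_⟩
    · rw [norm_mul]; exact mul_le_one₀ (hχ.1 n) (norm_nonneg _) (hg.1 n)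
    · show χ (m * n) * g (m * n) = χ m * g m * (χ n * g n)
      rw [hχ.2 m n hmn, hg.2 m n hmn]; ring
  have h1 := H N hN _ hg' f hf t A u hu V hV hVr Φ hΦ
  refine le_trans (le_of_eq ?_) h1
  congr 1
  apply sum_congr rfl; intro n _
  unfold cls
  split_ifs
  · ring
  · ring

/-- coefficients which are close in mean -/
theorem Bd_close {c c' : ℕ → ℕ → ℂ} (hc : Bd c)
    (h : ∀ ε : ℝ, 0 < ε → ∃ N0 : ℕ, ∀ N : ℕ, N0 ≤ N → ∑ n ∈ Icc 1 N, ‖c' N n - c N n‖ ≤ ε * N) : Bd c' := by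
  intro d r k ε hε
  obtain ⟨N0, H⟩ := hc d r k (ε / 2) (by positivity)
  obtain ⟨N1, H1⟩ := h (ε / 2) (by positivity)
  refine ⟨max N0 N1, fun N hN g hg f hf t A _ u hu V hV hVr Φ hΦ => ?_⟩
  have h1 := H N (le_trans (le_max_left _ _) hN) g hg f hf t A u hu V hV hVr Φ hΦ
  have h2 := H1 N (le_trans (le_max_right _ _) hN)
  have e : ∑ n ∈ Icc 1 N, c' N n * cls g f t u (fun n => Φ (top k n)) n
      = ∑ n ∈ Icc 1 N, (c' N n - c N n) * cls g f t u (fun n => Φ (top k n)) n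
        + ∑ n ∈ Icc 1 N, c N n * cls g f t u (fun n => Φ (top k n)) n := by
    rw [← sum_add_distrib]
    exact sum_congr rfl fun n _ => by ring
  rw [e]
  refine (norm_add_le _ _).trans ?_
  have h3 : ‖∑ n ∈ Icc 1 N, (c' N n - c N n) * cls g f t u (fun n => Φ (top k n)) n‖
      ≤ ∑ n ∈ Icc 1 N, ‖c' N n - c N n‖ := by
    refine (norm_sum_le _ _).trans (sum_le_sum fun n _ => ?_)
    rw [norm_mul]
    exact mul_le_of_le_one_right (norm_nonneg _) (cls_norm hg.1 f t u (fun n a => hΦ _ _) n)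
  linarith

/-! ### test sets -/

/-- on a finite set every interval condition is given by a closed interval -/
theorem closed_of (f : ℕ → ℝ) {I : Set ℝ} (hI : I.OrdConnected) (N : ℕ) :
    ∃ a b : ℝ, ∀ n ∈ Finset.Icc 1 N, f n ∈ I ↔ a ≤ f n ∧ f n ≤ b := by
  classical
  set V : Finset ℝ := ((Finset.Icc 1 N).image f).filter (fun y => y ∈ I) with hV
  rcases V.eq_empty_or_nonempty with h | h
  · refine ⟨1, 0, fun n hn => ⟨fun hf => ?_, fun hf => ?_⟩⟩
    · exfalso
      have : f n ∈ V := by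
        rw [hV, Finset.mem_filter]; exact ⟨Finset.mem_image_of_mem f hn, hf⟩
      rw [h] at this
      exact Finset.notMem_empty _ this
    · exfalso; linarith [hf.1, hf.2]
  · refine ⟨V.min' h, V.max' h, fun n hn => ⟨fun hf => ?_, fun hf => ?_⟩⟩
    · have : f n ∈ V := by
        rw [hV, Finset.mem_filter]; exact ⟨Finset.mem_image_of_mem f hn, hf⟩
      exact ⟨V.min'_le _ this, V.le_max' _ this⟩
    · have h1 := (Finset.mem_filter.1 (V.min'_mem h)).2
      have h2 := (Finset.mem_filter.1 (V.max'_mem h)).2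
      exact hI.out h1 h2 ⟨hf.1, hf.2⟩

/-- the test sets -/
def Tst (d r k : ℕ) (E : Set ℕ) : Prop :=
  ∃ (f : Fin d → ℕ → ℝ) (I : Fin d → Set ℝ) (A : Type) (_ : AddCommMonoid A) (h : ℕ → A) (B : Set (A × List ℕ)),
    (∀ i, AddR (f i)) ∧ (∀ i, (I i).OrdConnected) ∧ AddA h ∧ (∃ V : Finset A, V.card ≤ r ∧ ∀ p : ℕ, p.Prime → h p ∈ V) ∧
    E = {n : ℕ | (∀ i, f i n ∈ I i) ∧ (h n, top k n) ∈ B}

open scoped Classical in
theorem Bd_test {c : ℕ → ℕ → ℂ} (hc : Bd c) (d r k : ℕ) {ε : ℝ} (hε : 0 < ε) : ∃ N0 : ℕ, ∀ N : ℕ, N0 ≤ N →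
    ∀ E : Set ℕ, Tst d r k E → ∀ g : ℕ → ℂ, MulB g →
      ‖∑ n ∈ Icc 1 N, if n ∈ E then c N n * g n else 0‖ ≤ ε * N := by
  obtain ⟨N0, H⟩ := hc (d + d) r k ε hε
  refine ⟨N0, fun N hN E hE g hg => ?_⟩
  obtain ⟨f, I, A, instA, u, B, hf, hI, hu, hfv, hEq⟩ := hE
  have hmem : ∀ n, n ∈ E ↔ ((∀ i, f i n ∈ I i) ∧ (u n, top k n) ∈ B) := fun n => by rw [hEq]; exact Iff.rfl
  clear hEq
  obtain ⟨V, hVr, hV⟩ := hfv
  have hab := fun i => closed_of (f i) (hI i) N
  choose a b hab using hab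
  have h1 := H N hN g hg (Fin.append f (fun i n => - f i n)) (by
    intro i
    refine Fin.addCases (fun j => ?_) (fun j => ?_) i
    · rw [Fin.append_left]; exact hf j
    · rw [Fin.append_right]
      intro m n hmn
      simp only
      rw [hf j m n hmn]; ring) (Fin.append b (fun i => - a i)) A u hu V hV hVr
      (fun v a => if (a, v) ∈ B then 1 else 0) (fun v a => by split_ifs <;> simp)
  have e1 : ∑ n ∈ Finset.Icc 1 N, (if n ∈ E then c N n * g n else 0)
      = ∑ n ∈ Finset.Icc 1 N, c N n *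
        cls g (Fin.append f (fun i n => - f i n)) (Fin.append b (fun i => - a i)) u
          (fun n a => if (a, top k n) ∈ B then 1 else 0) n := by
    apply Finset.sum_congr rfl
    intro n hn
    have hiff : (∀ i, f i n ∈ I i) ↔ ∀ i : Fin (d + d), Fin.append f (fun i n => - f i n) i n ≤ Fin.append b (fun i => - a i) i := by
      constructor
      · intro h i
        refine Fin.addCases (fun j => ?_) (fun j => ?_) i
        · rw [Fin.append_left, Fin.append_left]
          exact ((hab j n hn).1 (h j)).2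
        · rw [Fin.append_right, Fin.append_right]
          exact neg_le_neg ((hab j n hn).1 (h j)).1
      · intro h j
        refine (hab j n hn).2 ⟨?_, ?_⟩
        · have := h (Fin.natAdd d j)
          rw [Fin.append_right, Fin.append_right] at this
          exact neg_le_neg_iff.1 this
        · have := h (Fin.castAdd d j)
          rwa [Fin.append_left, Fin.append_left] at this
    unfold cls
    by_cases h : ∀ i, f i n ∈ I i
    · rw [if_pos (hiff.1 h)]
      beta_reduce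
      by_cases h' : (u n, top k n) ∈ B
      · rw [if_pos ((hmem n).2 ⟨h, h'⟩), if_pos h', mul_one]
      · rw [if_neg (fun h3 => h' ((hmem n).1 h3).2), if_neg h', mul_zero, mul_zero]
    · rw [if_neg (fun h' => h (hiff.2 h')), mul_zero, if_neg (fun h3 => h ((hmem n).1 h3).1)]
  rw [e1]
  exact h1

/-! ### odd integers -/

theorem odd_mul : MulB (fun n => if n % 2 = 1 then (1 : ℂ) else 0) := by
  refine ⟨fun n => by beta_reduce; split_ifs <;> simp, fun m n _ => ?_⟩
  rcases Nat.mod_two_eq_zero_or_one m with h | h <;> rcases Nat.mod_two_eq_zero_or_one n with h' | h' <;>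
    simp [Nat.mul_mod, h, h']

/-! ### functions of the residue class modulo a power of two -/

/-- the odd part modulo `2 ^ K` and the exponent of `2` -/
def res (K n : ℕ) : Additive (ZMod (2 ^ K)) × ℕ := (Additive.ofMul ((ordCompl[2] n : ℕ) : ZMod (2 ^ K)), n.factorization 2)

theorem res_add (K : ℕ) : AddA (res K) := by
  intro m n hmn
  unfold res
  rw [Nat.ordCompl_mul, Nat.cast_mul, ofMul_mul, Nat.factorization_mul_of_coprime hmn]
  rfl

/-- the values at the primes -/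
def resV (K : ℕ) : Finset (Additive (ZMod (2 ^ K)) × ℕ) :=
  insert (Additive.ofMul 1, 1) ((univ : Finset (ZMod (2 ^ K))).image (fun z => (Additive.ofMul z, 0)))

theorem res_prime (K p : ℕ) (hp : p.Prime) : res K p ∈ resV K := by
  unfold res resV
  by_cases h : p = 2
  · subst h
    rw [mem_insert]; left
    have e1 : Nat.factorization 2 2 = 1 := by simp [Nat.prime_two.factorization]
    rw [e1]
    simp
  · rw [mem_insert]; right
    have e1 : Nat.factorization p 2 = 0 := Nat.factorization_eq_zero_of_not_dvd (fun h2 => h (((Nat.prime_dvd_prime_iff_eq Nat.prime_two hp).1 h2).symm))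
    rw [e1, pow_zero, Nat.div_one]
    exact mem_image_of_mem _ (mem_univ _)

theorem resV_card (K : ℕ) : (resV K).card ≤ 2 ^ K + 1 := by
  unfold resV
  refine (card_insert_le _ _).trans ?_
  have : ((univ : Finset (ZMod (2 ^ K))).image (fun z => ((Additive.ofMul z, 0) : Additive (ZMod (2 ^ K)) × ℕ))).card ≤ 2 ^ K := by
    refine card_image_le.trans ?_
    rw [card_univ, ZMod.card]
  omega

theorem Bd_res {c : ℕ → ℕ → ℂ} (hc : Bd c) (K : ℕ) {φ : ZMod (2 ^ K) → ℂ} (hφ : ∀ z, ‖φ z‖ ≤ 1) :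
    Bd (fun N n => c N n * φ (n : ZMod (2 ^ K))) := by
  classical
  intro d r k ε hε
  obtain ⟨N0, H⟩ := hc d (r * (2 ^ K + 1)) k ε hε
  refine ⟨N0, fun N hN g hg f hf t A _ u hu V hV hVr Φ hΦ => ?_⟩
  have h1 := H N hN g hg f hf t (A × (Additive (ZMod (2 ^ K)) × ℕ)) (fun n => (u n, res K n)) (by
    intro m n hmn
    show (u (m * n), res K (m * n)) = _
    rw [hu m n hmn, res_add K m n hmn]; rfl) (V ×ˢ resV K) (fun p hp => by
      rw [mem_product]; exact ⟨hV p hp, res_prime K p hp⟩) (by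
      rw [card_product]; exact Nat.mul_le_mul hVr (resV_card K))
      (fun l a => Φ l a.1 * φ (2 ^ a.2.2 * Additive.toMul a.2.1)) (fun l a => by
        rw [norm_mul]; exact mul_le_one₀ (hΦ _ _) (norm_nonneg _) (hφ _))
  refine le_trans (le_of_eq ?_) h1
  congr 1
  apply sum_congr rfl; intro n _
  have e : ((2 : ZMod (2 ^ K)) ^ (n.factorization 2) * ((ordCompl[2] n : ℕ) : ZMod (2 ^ K))) = (n : ZMod (2 ^ K)) := by
    conv_rhs => rw [← Nat.ordProj_mul_ordCompl_eq_self n 2]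
    push_cast
    rfl
  unfold cls res
  simp only [toMul_ofMul, e]
  split_ifs
  · ring
  · ring

end Pool.Agent.Q235.CO
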