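import Pool.Agent.Q235.CO.A
import Pool.Agent.Q49.AF.RTLaws
import Pool.Agent.H499R2.NDHt
import Pool.Agent.H499R2.HL.C

/-! The laws of the heights relative to arithmetical test functions. -/

set_option autoImplicit false

namespace Pool.Agent.Q235.CO

open Finset Filter Topology
open Pool.Agent.Q49.AF
open Pool.Agent.Y964.LW hiding thr
open Pool.Agent.H499R2.ND (Dn Tn Td Phi Phi_continuous phi_cdf Bas cnt cnt_eq cnt_or cnt_small zd_iff)
open Pool.Agent.H499R2.LT (odn law_one Dn_iff)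
open Pool.Agent.H499R2.HL (H bo law_k law_o rr rr_pos nu nu_pos)
open scoped Classical

theorem ht_rx : ∃ δ : ℝ, 0 < δ ∧ δ ≤ 1 ∧ (δ = 1 ↔ ∀ n : ℕ, 1 ≤ n → ∃ k : ℕ, Tn^[k] n = 1) ∧
    Dn (fun n => ∃ k : ℕ, Tn^[k] n = 1) δ ∧ RX (fun n => ∃ k, H k n) δ ∧
    ∀ (m : ℕ) (b : ℤ), 1 ≤ m → ∀ x : ℝ,
        RX (fun n => ∃ k, H k n ∧ ((odn k n : ℝ) ≤ bo x (Real.log n) ∧ (odn k n : ℤ) ≡ b [ZMOD m]))
          (δ / m * Phi x) := by
  obtain ⟨δ, h0, h1, h2, h3, h4⟩ := law_one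
  obtain ⟨δ1, _, _, _, h31, h41⟩ := law_k
  have e1 : δ1 = δ := tendsto_nhds_unique h31 h3
  rw [e1] at h41
  have hnu := nu_pos
  have hrr := rr_pos
  have hl2 : 0 < Real.log 2 := Real.log_pos (by norm_num)
  have s1 : (1 : ℤ) = 1 ∨ (1 : ℤ) = -1 := Or.inl rfl
  have hB : Dn (fun n => ∃ k, H k n) δ := Dn_iff (fun n _ => hit_iff n) h3
  have c0 : Continuous (fun _ : ℝ => δ) := continuous_const
  refine ⟨δ, h0, h1, h2, h3, ?_, fun m b hm x => ?_⟩
  · have h5 := fam_RX s1 (mkFam (ι := Unit) (fun _ _ _ _ => True) id 0 1 1 (fun _ _ => δ) le_rfl one_pos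
      (fun _ _ _ _ _ _ h => h) (fun _ _ _ _ => Iff.rfl) (fun _ _ => rfl) (fun _ _ => ⟨h0.le, h1⟩) (fun _ => c0)
      (fun _ _ => by simpa using hB)) () 0
    refine RX_congr (fun n _ => ?_) h5
    show (∃ k, H k n ∧ True) ↔ _
    simp
  · have h5 := fam_RX s1 (mkFam (ι := ℤ) (fun i τ _ o => (o : ℝ) ≤ τ ∧ (o : ℤ) ≡ i [ZMOD m])
      id 0 (1 / Real.log (4 / 3)) (Real.log 2 * rr) (fun _ x => δ / (m : ℝ) * Phi x)
      le_rfl (by positivity)
      (fun _ _ _ _ _ h1 h => ⟨h.1.trans h1, h.2⟩) (fun i τ k o => by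
        rw [sub_zero]; rfl) (fun _ _ => rfl)
      (fun _ x => mul01 (div_le' h0 h1 hm) (phi01 x))
      (fun _ => Phi_continuous.const_mul _)
      (fun i x => by
        refine Dn_iff (fun n _ => exists_congr fun k => ?_) (law_o (h41 m i hm).2 x)
        rw [← bo_thr]
        tauto)) b x
    refine RX_congr (fun n _ => ?_) h5
    rw [bo_thr]
    exact Iff.rfl

/-- the law of large numbers in the mean -/
theorem trunc_l1 {c Λ : ℝ} (hc : 0 < c) (hΛ : c < Λ) {B : ℕ → Prop} {H : ℕ → ℕ → Prop}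
    {f : ℕ → ℕ → ℕ}
    (hE : ∀ ε : ℝ, 0 < ε → Dn (fun m => m % 2 = 1 ∧ B m ∧
      ¬ ∃ h : ℕ, H m h ∧ |(h : ℝ) - c * Real.log m| ≤ ε * Real.log m) 0)
    (hf1 : ∀ m h L, m % 2 = 1 → H m h → f m L = min h L)
    (hf2 : ∀ m L, m % 2 = 1 → ¬ B m → f m L = L) (hf3 : ∀ m L, f m L ≤ L) :
    ∀ ε : ℝ, 0 < ε → ∃ N0 : ℕ, ∀ N : ℕ, N0 ≤ N → ∑ m ∈ (Icc 1 N).filter (fun m => m % 2 = 1),
      |(f m ⌊Λ * Real.log N⌋₊ : ℝ) / Real.log N - (if B m then c else Λ)| ≤ ε * N := by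
  classical
  have hΛ0 : 0 < Λ := hc.trans hΛ
  set g : ℕ → ℝ := fun m => if B m then c else Λ with hg
  intro ε hε
  -- parameters
  set η : ℝ := min (ε / (16 * Λ)) 1 with hη
  have hη0 : 0 < η := lt_min (by positivity) (by norm_num)
  have hη1 : η * (16 * Λ) ≤ ε := by
    have := min_le_left (ε / (16 * Λ)) 1
    rw [← hη, le_div_iff₀ (by positivity)] at this
    exact this
  set ε1 : ℝ := min (ε / 16) ((Λ - c) / 4) with hε1
  have hε10 : 0 < ε1 := lt_min (by positivity) (by linarith)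
  have hε11 : ε1 ≤ ε / 16 := min_le_left _ _
  have hε12 : ε1 ≤ (Λ - c) / 4 := min_le_right _ _
  have hE1 := zd_iff.1 (hE ε1 hε10) η hη0
  have hlogN : Tendsto (fun N : ℕ => Real.log (N : ℝ)) atTop atTop :=
    Real.tendsto_log_atTop.comp tendsto_natCast_atTop_atTop
  have hev := hE1.and ((hlogN.eventually_ge_atTop (max 1 (max (-(c * Real.log η) / ε1) (1 / ε1)))).and
    (eventually_gt_atTop 0))
  obtain ⟨N0, hN0⟩ := eventually_atTop.1 hev
  refine ⟨N0, fun N hN => ?_⟩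
  obtain ⟨h1, h2, h3⟩ := hN0 N hN
  have hNR : (0 : ℝ) < N := by exact_mod_cast h3
  set L := Real.log (N : ℝ) with hL
  have hL1 : 1 ≤ L := (le_max_left _ _).trans h2
  have hL2 : -(c * Real.log η) ≤ ε1 * L := by
    have := (le_max_left _ _).trans ((le_max_right _ _).trans h2)
    rw [div_le_iff₀ hε10] at this
    linarith
  have hL3 : 1 ≤ ε1 * L := by
    have := (le_max_right _ _).trans ((le_max_right _ _).trans h2)
    rw [div_le_iff₀ hε10] at this
    linarith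
  have hL0 : 0 < L := by linarith
  have hfl1 : (⌊Λ * L⌋₊ : ℝ) ≤ Λ * L := Nat.floor_le (by positivity)
  have hfl2 : Λ * L - 1 < (⌊Λ * L⌋₊ : ℝ) := by
    have := Nat.lt_floor_add_one (Λ * L)
    linarith
  -- pointwise bound
  set Ex : ℕ → Prop := fun m => (m : ℝ) ≤ η * N ∨ (m % 2 = 1 ∧ B m ∧
    ¬ ∃ h : ℕ, H m h ∧ |(h : ℝ) - c * Real.log m| ≤ ε1 * Real.log m) with hEx
  have hpt : ∀ m ∈ (Icc 1 N).filter (fun m => m % 2 = 1),
      |(f m ⌊Λ * L⌋₊ : ℝ) - g m * L| ≤ 2 * ε1 * L + (if Ex m then Λ * L else 0) := by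
    intro m hm
    rw [mem_filter, mem_Icc] at hm
    obtain ⟨⟨hm1, hmN⟩, hmo⟩ := hm
    have hmR : (0 : ℝ) < m := by exact_mod_cast hm1
    have hfL : (f m ⌊Λ * L⌋₊ : ℝ) ≤ Λ * L := le_trans (by exact_mod_cast hf3 m _) hfl1
    have hf0 : (0 : ℝ) ≤ (f m ⌊Λ * L⌋₊ : ℝ) := Nat.cast_nonneg _
    have hε1L : 0 ≤ ε1 * L := by positivity
    by_cases hex : Ex m
    · rw [if_pos hex]
      have hgm : 0 ≤ g m * L ∧ g m * L ≤ Λ * L := by
        have : 0 ≤ g m ∧ g m ≤ Λ := by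
          simp only [hg]; split_ifs
          · exact ⟨hc.le, hΛ.le⟩
          · exact ⟨hΛ0.le, le_rfl⟩
        exact ⟨mul_nonneg this.1 hL0.le, mul_le_mul_of_nonneg_right this.2 hL0.le⟩
      rw [abs_le]; constructor <;> linarith [hgm.1, hgm.2]
    · rw [if_neg hex, add_zero]
      simp only [hEx, not_or, not_le] at hex
      obtain ⟨hmη, hex2⟩ := hex
      by_cases hBm : B m
      · have h4 : ∃ h : ℕ, H m h ∧ |(h : ℝ) - c * Real.log m| ≤ ε1 * Real.log m := by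
          by_contra hcon
          exact hex2 ⟨hmo, hBm, hcon⟩
        obtain ⟨h, hH, h5⟩ := h4
        have hlm : Real.log m ≤ L := Real.log_le_log hmR (by exact_mod_cast hmN)
        have hlm2 : Real.log η + L ≤ Real.log m := by
          rw [hL, ← Real.log_mul hη0.ne' hNR.ne']
          exact Real.log_le_log (by positivity) hmη.le
        have h6 := abs_le.1 h5
        have h7 : ε1 * Real.log m ≤ ε1 * L := mul_le_mul_of_nonneg_left hlm hε10.le
        have h8 : c * Real.log m ≤ c * L := mul_le_mul_of_nonneg_left hlm hc.le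
        have h9 : c * (Real.log η + L) ≤ c * Real.log m := mul_le_mul_of_nonneg_left hlm2 hc.le
        have h10 : (h : ℝ) ≤ c * L + ε1 * L := by linarith
        have h11 : c * L - 2 * (ε1 * L) ≤ (h : ℝ) := by nlinarith
        have h12 : ε1 * L ≤ (Λ - c) / 4 * L := mul_le_mul_of_nonneg_right hε12 hL0.le
        have h13 : (h : ℝ) ≤ ⌊Λ * L⌋₊ := by nlinarith
        have h14 : h ≤ ⌊Λ * L⌋₊ := by exact_mod_cast h13
        rw [hf1 m h _ hmo hH, min_eq_left h14]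
        simp only [hg, if_pos hBm]
        rw [abs_le]; constructor <;> linarith
      · rw [hf2 m _ hmo hBm]
        simp only [hg, if_neg hBm]
        rw [abs_le]; constructor <;> linarith
  -- summation
  have e : ∀ m, |(f m ⌊Λ * L⌋₊ : ℝ) / L - g m| = |(f m ⌊Λ * L⌋₊ : ℝ) - g m * L| / L := by
    intro m
    rw [← abs_of_pos hL0, ← abs_div, abs_of_pos hL0]
    congr 1
    field_simp
  have hsum : ∑ m ∈ (Icc 1 N).filter (fun m => m % 2 = 1), |(f m ⌊Λ * L⌋₊ : ℝ) - g m * L|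
      ≤ N * (2 * ε1 * L) + 2 * (η * N) * (Λ * L) := by
    refine (sum_le_sum hpt).trans ?_
    rw [sum_add_distrib, sum_const, nsmul_eq_mul]
    have h4 : (((Icc 1 N).filter (fun m => m % 2 = 1)).card : ℝ) ≤ N := by
      have := card_filter_le (Icc 1 N) (fun m => m % 2 = 1)
      rw [Nat.card_Icc, Nat.add_sub_cancel] at this
      exact_mod_cast this
    have h5 : ∑ m ∈ (Icc 1 N).filter (fun m => m % 2 = 1), (if Ex m then Λ * L else 0)
        ≤ 2 * (η * N) * (Λ * L) := by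
      rw [← sum_filter, sum_const, nsmul_eq_mul]
      apply mul_le_mul_of_nonneg_right _ (by positivity)
      have h6 : (((Icc 1 N).filter (fun m => m % 2 = 1)).filter Ex).card ≤ ((Icc 1 N).filter Ex).card := by
        apply card_le_card
        intro m hm
        rw [mem_filter, mem_filter] at hm
        rw [mem_filter]
        exact ⟨hm.1.1, hm.2⟩
      have h7 : cnt Ex N ≤ cnt (fun m => (m : ℝ) ≤ η * N) N + cnt (fun m => m % 2 = 1 ∧ B m ∧
          ¬ ∃ h : ℕ, H m h ∧ |(h : ℝ) - c * Real.log m| ≤ ε1 * Real.log m) N :=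
        cnt_or N fun m _ _ h => h
      have h8 := cnt_small (t := η * N) (by positivity) N
      rw [cnt_eq] at h7
      have h9 : ((((Icc 1 N).filter (fun m => m % 2 = 1)).filter Ex).card : ℝ)
          ≤ (((Icc 1 N).filter Ex).card : ℝ) := by exact_mod_cast h6
      linarith
    have h6 : (((Icc 1 N).filter (fun m => m % 2 = 1)).card : ℝ) * (2 * ε1 * L) ≤ N * (2 * ε1 * L) :=
      mul_le_mul_of_nonneg_right h4 (by positivity)
    linarith
  have eg : ∀ m, |(f m ⌊Λ * L⌋₊ : ℝ) / L - (if B m then c else Λ)| = |(f m ⌊Λ * L⌋₊ : ℝ) - g m * L| / L := fun m => by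
    rw [← e m]
  rw [Finset.sum_congr rfl (fun m _ => eg m)]
  rw [← sum_div, div_le_iff₀ hL0]
  refine hsum.trans ?_
  have h4 : N * (2 * ε1 * L) ≤ N * (ε / 8 * L) := by
    apply mul_le_mul_of_nonneg_left _ hNR.le
    apply mul_le_mul_of_nonneg_right _ hL0.le
    linarith
  have h5 : 2 * (η * N) * (Λ * L) = η * (16 * Λ) * (N * L / 8) := by ring
  have h6 : η * (16 * Λ) * (N * L / 8) ≤ ε * (N * L / 8) := mul_le_mul_of_nonneg_right hη1 (by positivity)
  rw [h5]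
  nlinarith [mul_pos hε (mul_pos hNR hL0)]

/-- laws among the odd integers -/
theorem Bd_odd {P Q : ℕ → Prop} {l : ℝ} (h : RX Q l) (R : ℕ) (hPQ : ∀ n, R < n → n % 2 = 1 → (Q n ↔ P n)) :
    Bd (fun _ n => if n % 2 = 1 then (if P n then (1 : ℂ) else 0) - l else 0) := by
  refine Bd_close (Bd_mul (Bd_of_RX h) odd_mul) fun ε hε => ?_
  refine ⟨⌈(R : ℝ) / ε⌉₊, fun N hN => ?_⟩
  have hNR : (R : ℝ) / ε ≤ N := (Nat.le_ceil _).trans (by exact_mod_cast hN)
  rw [div_le_iff₀ hε] at hNR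
  have h4 : ∀ n ∈ Icc 1 N, ‖(if n % 2 = 1 then (if P n then (1 : ℂ) else 0) - l else 0)
      - ((if Q n then (1 : ℂ) else 0) - l) * (if n % 2 = 1 then (1 : ℂ) else 0)‖ ≤ if n ≤ R then (1 : ℝ) else 0 := by
    intro n _
    by_cases ho : n % 2 = 1
    · rw [if_pos ho, if_pos ho, mul_one, sub_sub_sub_cancel_right]
      by_cases h5 : n ≤ R
      · rw [if_pos h5]
        split_ifs <;> simp
      · rw [if_neg h5]
        have h6 := hPQ n (by omega) ho
        by_cases h7 : P n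
        · rw [if_pos h7, if_pos (h6.2 h7), sub_self, norm_zero]
        · rw [if_neg h7, if_neg (fun h8 => h7 (h6.1 h8)), sub_self, norm_zero]
    · rw [if_neg ho, if_neg ho, mul_zero, sub_zero, norm_zero]
      split_ifs <;> norm_num
  refine (sum_le_sum h4).trans ?_
  rw [← sum_filter, sum_const, nsmul_eq_mul, mul_one]
  have h5 : ((Icc 1 N).filter (fun n => n ≤ R)).card ≤ (Icc 1 R).card := by
    apply card_le_card
    intro n hn
    rw [mem_filter, mem_Icc] at hn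
    rw [mem_Icc]
    exact ⟨hn.1.1, hn.2⟩
  rw [Nat.card_Icc] at h5
  have h6 : (((Icc 1 N).filter (fun n => n ≤ R)).card : ℝ) ≤ R := by
    exact_mod_cast (by omega : ((Icc 1 N).filter (fun n => n ≤ R)).card ≤ R)
  linarith

end Pool.Agent.Q235.CO
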