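import Pool.Agent.Q235.CO.HT
import Pool.Agent.Y964.LW.C8

/-! Entrance times and invariant sets relative to arithmetical test functions, both signs. -/

set_option autoImplicit false

namespace Pool.Agent.Q235.CO

open Finset Filter Topology
open Pool.Agent.Q49.AF
open Pool.Agent.Y964.LW hiding thr Bd
open Pool.Agent.H499R2.CO (Tz)
open Pool.Agent.H499R2.ND (Dn Td Phi Phi_continuous phi_cdf Inv HD)
open Pool.Agent.H499R2.LT (od od_add Dn_iff)
open Pool.Agent.H499R2.HL (bk bo nu rr nu_pos rr_pos sqrt_rr)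
open Pool.Agent.W26.HN (E E_unique exists_E E_two E_of_two od_two side_two)
open scoped Classical

theorem ent_rx {s : ℤ} (hs : s = 1 ∨ s = -1) {F : Finset ℤ} (hF : ∀ y ∈ F, y % 2 = 1) {B : ℕ}
    (hB : Pool.Agent.Y964.LW.Bd F B) :
    ∃ δ : ℝ, 0 ≤ δ ∧ δ ≤ 1 ∧ ((∃ a ∈ F, 0 < s * a ∧ ¬ (3 : ℤ) ∣ a) → 0 < δ) ∧
    Dn (fun n : ℕ => ∃ k : ℕ, E F k (s * n)) δ ∧
    RX (fun n : ℕ => ∃ k : ℕ, E F k (s * n)) δ ∧
    ∀ (m : ℕ) (b : ℤ), 1 ≤ m → ∀ x : ℝ,
      RX (fun n : ℕ => ∃ k : ℕ, E F k (s * n) ∧ ((od 1 k (s * n) : ℝ) ≤ bo x (Real.log n) ∧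
        od 1 k (s * n) ≡ b [ZMOD m])) (δ / m * Phi x) := by
  obtain ⟨δ, h0, h1, h2, h3⟩ := Pool.Agent.W26.HN.law_k hs F
  have hE : Dn (fun n : ℕ => ∃ k : ℕ, E F k (s * n)) δ := by
    refine Dn_iff (fun n _ => ?_) h2
    constructor
    · rintro ⟨k, hk⟩
      obtain ⟨j, _, hj⟩ := exists_E hk
      exact ⟨j, hj⟩
    · rintro ⟨k, hk⟩; exact ⟨k, hk.1⟩
  have hδ1 : δ ≤ 1 := by
    refine le_of_tendsto' hE fun N => ?_
    rcases Nat.eq_zero_or_pos N with h | h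
    · subst h; simp
    · rw [div_le_one (by exact_mod_cast h)]
      exact Pool.Agent.H499R2.ND.cnt_le _ N
  have hdiv : ∀ m : ℕ, 1 ≤ m → 0 ≤ δ / (m : ℝ) ∧ δ / (m : ℝ) ≤ 1 := by
    intro m hm
    have hm1 : (1 : ℝ) ≤ m := by exact_mod_cast hm
    refine ⟨by positivity, ?_⟩
    rw [div_le_one (by positivity)]
    linarith
  have hrr := rr_pos
  have hl2 : 0 < Real.log 2 := Real.log_pos (by norm_num)
  refine ⟨δ, h0, hδ1, h1, hE, ?_, fun m b hm x => ?_⟩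
  · have h5 := fam_RX hs (mkFamE hs hF hB (ι := Unit) (fun _ _ _ _ => True) id 0 1 1 (fun _ _ => δ) le_rfl one_pos
      (fun _ _ _ _ _ _ h => h) (fun _ _ _ _ => Iff.rfl) (fun _ _ => rfl) (fun _ _ => ⟨h0, hδ1⟩)
      (fun _ => continuous_const) (fun _ _ => by simpa using hE)) () 0
    refine RX_congr (fun n _ => ?_) h5
    show (∃ k, E F k (s * n) ∧ True) ↔ _
    simp
  · have h5 := fam_RX hs (mkFamE hs hF hB (ι := ℤ) (fun i τ _ o => (o : ℝ) ≤ τ ∧ o ≡ i [ZMOD m])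
      id 0 (1 / Real.log (4 / 3)) (Real.log 2 * rr) (fun _ x => δ / (m : ℝ) * Phi x)
      le_rfl (by positivity)
      (fun _ _ _ _ _ h1 h => ⟨h.1.trans h1, h.2⟩) (fun i τ k o => by
        rw [sub_zero]; rfl) (fun _ _ => rfl)
      (fun _ x => mul01 (hdiv m hm) (phi01 x))
      (fun _ => Phi_continuous.const_mul _)
      (fun i x => by
        refine Dn_iff (fun n _ => exists_congr fun k => ?_) (Pool.Agent.W26.HN.law_o hs F (h3 m i hm).2 x)
        rw [← bo_thr]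
        tauto)) b x
    refine RX_congr (fun n _ => ?_) h5
    rw [bo_thr]
    exact Iff.rfl

theorem inv_iter {S : Set ℤ} (hS : Inv 1 S) (j : ℕ) : ∀ x : ℤ, x ∈ S ↔ (Td 1)^[j] x ∈ S := by
  induction j with
  | zero => intro x; exact Iff.rfl
  | succ j ih =>
    intro x
    rw [Function.iterate_succ_apply, ← ih, ← hS x]

theorem inv_rx {s : ℤ} (hs : s = 1 ∨ s = -1) {S : Set ℤ} (hS : Inv 1 S) {δ : ℝ} (h0 : 0 ≤ δ) (h1 : δ ≤ 1)
    (h : Dn (fun n : ℕ => s * (n : ℤ) ∈ S) δ) : RX (fun n : ℕ => s * (n : ℤ) ∈ S) δ := by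
  let A : Fam s 0 Unit :=
    { E := fun _ _ n => s * (n : ℤ) ∈ S
      sh := id
      w := 0
      α := 1
      σ := 1
      F := fun _ _ => δ
      hw := le_rfl
      hσ := one_pos
      mono := fun _ _ _ _ _ h => h
      same := fun _ _ j x y _ _ e _ _ h => by
        rw [inv_iter hS j, side_iter hs, ← e, ← side_iter hs, ← inv_iter hS j]
        exact h
      two := fun _ _ n _ => by
        rw [side_two]
        exact hS.two _
      Fsh := fun _ _ => rfl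
      F01 := fun _ _ => ⟨h0, h1⟩
      cont := fun _ => continuous_const
      law := fun _ _ => h }
  exact fam_RX hs A () 0

/-- laws on the odd integers, from a set of coefficients -/
theorem Bd_odd' {s : ℤ} {P : ℤ → Prop} {Q : ℕ → Prop} {l : ℝ} (h : RX Q l) (R : ℕ)
    (hPQ : ∀ n : ℕ, R < n → n % 2 = 1 → (Q n ↔ P (s * n))) :
    Bd (fun _ n => if n % 2 = 1 then (if P (s * n) then (1 : ℂ) else 0) - l else 0) :=
  Bd_odd h R hPQ

end Pool.Agent.Q235.CO
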